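import Pool.Agent.R759.SRFamily

/-! # Simplicial refinements with fewer vertices than the model -/

set_option autoImplicit false

namespace Pool.Agent.Results.MP_902647_gt.FewerVertices

open Pool.Agent.R759.SR

/-- The statement of the conjecture: if `C` is a polytope which is not a simplex and `(T, ΩT, f, g)`
is a simplicial refinement of `(C, ΩC)`, where `T` is a simplex with `N` vertices, then the number
of extreme points of `C` is at most `N`. -/
def NoFewerVertices : Prop :=
  ∀ (V E : Type) [AddCommGroup V] [Module ℝ V] [FiniteDimensional ℝ V]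
    [AddCommGroup E] [Module ℝ E] [FiniteDimensional ℝ E] (C : Set V),
    IsPolytope C → (∀ N : ℕ, ¬ IsSimplex C N) →
    ∀ (T : Set E) (N : ℕ), IsSimplex T N → Nonempty (Refinement C T) →
      (C.extremePoints ℝ).ncard ≤ N

/-- The conjecture is false. -/
theorem result : ¬ NoFewerVertices := by
  intro hconj
  obtain ⟨R, -⟩ := Parab.exists_PRefinement 3 0
  have h := hconj _ _ (Parab.PP 3 0) (Parab.PP_isPolytope 3 0) (Parab.PP_not_simplex 3 0) _ _
    (isSimplex_stdSimplex (Parab.II 3 0)) ⟨R⟩
  rw [Parab.PP_ncard, Parab.card_II] at h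
  norm_num at h

end Pool.Agent.Results.MP_902647_gt.FewerVertices
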